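import Pool.Agent.Helper11.TW.Defs2

/-!
# Twists and types: the count from the abstract count, for arbitrary sets of bits

The proof is that of `Pool.Agent.Helper43.TW.count_core`, with an arbitrary finite set `J` of bits.
-/

namespace Pool.Agent.Helper13.LV

open Helper11.TW

theorem prime_of_good {d : ℤ} {B r : ℕ} (h : r ∈ good d B) : r.Prime :=
  Nat.prime_of_mem_primeFactors (Finset.mem_filter.1 h).1

theorem dvd_of_good {d : ℤ} {B r : ℕ} (h : r ∈ good d B) : (r : ℤ) ∣ d :=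
  Int.natCast_dvd.2 (Nat.dvd_of_mem_primeFactors (Finset.mem_filter.1 h).1)

theorem not_dvd_of_good {d : ℤ} {B r : ℕ} (h : r ∈ good d B) : ¬ r ∣ B :=
  (Finset.mem_filter.1 h).2

theorem mem_of_dvd_part {α : Type} [DecidableEq α] {d : ℤ} {B : ℕ} {e : ℕ → α} {v : α}
    {r : ℕ} (hr : r.Prime) (h : r ∣ part d B e v) : r ∈ good d B ∧ e r = v := by
  unfold part at h
  obtain ⟨r', hr', hdvd⟩ := (Nat.Prime.prime hr).exists_mem_finset_dvd h
  rw [Finset.mem_filter] at hr'
  have h2 : r = r' := (Nat.prime_dvd_prime_iff_eq hr (prime_of_good hr'.1)).1 hdvd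
  rw [h2]
  exact hr'

/-- the data attached to one `d` -/
theorem per_d {J : Type} [Fintype J] [DecidableEq J] (B : ℕ) (S : (J → Bool) → ℕ → Prop) (d : ℤ)
    (kap : (J → Bool) → J → ℕ → ℤ) (en : ℕ → J → Bool)
    (h : ∀ r ∈ good d B, ¬ S (en r) r ∧ ∀ j,
      jacobiSym (∏ x ∈ (good d B).filter (fun x => en x j ≠ en r j), (x : ℤ)) r = kap (en r) j r ∧
        kap (en r) j r ≠ 0) :
    ∃ D : (J → Bool) → ℕ, ∏ e, D e = ∏ r ∈ good d B, r ∧
      ∀ e, ∀ r : ℕ, r.Prime → r ∣ D e → ¬ S e r ∧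
        ∀ j, jacobiSym (∏ e' ∈ Finset.univ.filter (fun e' : J → Bool => e' j ≠ e j),
          (D e' : ℤ)) r = kap e j r ∧ kap e j r ≠ 0 := by
  classical
  refine ⟨fun v => part d B en v, ?_, ?_⟩
  · exact Finset.prod_fiberwise (good d B) en (fun r => r)
  · intro v r hr hrD
    obtain ⟨hg, hv⟩ := mem_of_dvd_part hr hrD
    subst hv
    obtain ⟨hS, hj⟩ := h r hg
    refine ⟨hS, fun j => ?_⟩
    have h1 : ∏ e' ∈ Finset.univ.filter
        (fun e' : J → Bool => e' j ≠ en r j), (part d B en e' : ℤ) =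
        ∏ x ∈ (good d B).filter (fun x => en x j ≠ en r j), (x : ℤ) := by
      rw [← Finset.prod_fiberwise_of_maps_to
        (s := (good d B).filter (fun x => en x j ≠ en r j))
        (t := Finset.univ.filter
          (fun e' : J → Bool => e' j ≠ en r j)) (g := en)
        (fun x hx => by
          rw [Finset.mem_filter] at hx ⊢
          exact ⟨Finset.mem_univ _, hx.2⟩)]
      refine Finset.prod_congr rfl ?_
      intro e' he'
      rw [Finset.mem_filter] at he'
      unfold part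
      push_cast
      refine Finset.prod_congr ?_ (fun _ _ => rfl)
      ext x
      simp only [Finset.mem_filter]
      constructor
      · rintro ⟨h2, h3⟩
        exact ⟨⟨h2, by rw [h3]; exact he'.2⟩, h3⟩
      · rintro ⟨⟨h2, -⟩, h3⟩
        exact ⟨h2, h3⟩
    show jacobiSym (∏ e' ∈ Finset.univ.filter
        (fun e' : J → Bool => e' j ≠ en r j), (part d B en e' : ℤ)) r = _ ∧ _
    rw [h1]
    exact hj j

/-- The bound for the twists follows from the abstract bound. -/
theorem count_gen {J : Type} [Fintype J] [DecidableEq J] {U : Type} [DecidableEq U]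
    (B : ℕ) (hB0 : B ≠ 0) (h2 : 2 ∣ B) (S : (J → Bool) → ℕ → Prop) (C δ : ℝ)
    (hC : ∀ (kap : (J → Bool) → J → ℕ → ℤ) (N : ℕ), 2 ≤ N → ∀ A : Finset ℕ,
      (∀ m ∈ A, m ≤ N ∧ Odd m ∧ Squarefree m ∧ ∃ D : (J → Bool) → ℕ, ∏ e, D e = m ∧
        ∀ e, ∀ r : ℕ, r.Prime → r ∣ D e → ¬ S e r ∧
          ∀ j, jacobiSym (∏ e' ∈ Finset.univ.filter
            (fun e' : J → Bool => e' j ≠ e j), (D e' : ℤ)) r
            = kap e j r ∧ kap e j r ≠ 0) →
      (A.card : ℝ) ≤ C * N * (Real.log N) ^ (-δ))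
    (UU : Finset U) (kap : U → (J → Bool) → J → ℕ → ℤ) (N : ℕ) (hN : 2 ≤ N) (A : Finset ℤ)
    (hA : ∀ d ∈ A, Squarefree d ∧ |d| ≤ N ∧ ∃ u ∈ UU, ∃ en : ℕ → J → Bool,
      ∀ r ∈ good d B, ¬ S (en r) r ∧ ∀ j,
        jacobiSym (∏ x ∈ (good d B).filter (fun x => en x j ≠ en r j), (x : ℤ)) r =
          kap u (en r) j r ∧ kap u (en r) j r ≠ 0) :
    (A.card : ℝ) ≤ ((2 * 2 ^ B.primeFactors.card * UU.card : ℕ) : ℝ) * C * N *
      (Real.log N) ^ (-δ) := by
  classical
  -- the data of `d`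
  have hdata : ∀ d : ℤ, ∃ u : Option U, d ∈ A → ∃ u0 ∈ UU, u = some u0 ∧
      ∃ D : (J → Bool) → ℕ, ∏ e, D e = ∏ r ∈ good d B, r ∧
      ∀ e, ∀ r : ℕ, r.Prime → r ∣ D e → ¬ S e r ∧
        ∀ j, jacobiSym (∏ e' ∈ Finset.univ.filter (fun e' : J → Bool => e' j ≠ e j),
          (D e' : ℤ)) r = kap u0 e j r ∧ kap u0 e j r ≠ 0 := by
    intro d
    by_cases hd : d ∈ A
    · obtain ⟨-, -, u, hu, en, hen⟩ := hA d hd
      exact ⟨some u, fun _ => ⟨u, hu, rfl, per_d B S d (kap u) en hen⟩⟩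
    · exact ⟨none, fun h => absurd h hd⟩
  choose ud hud using hdata
  let m : ℤ → ℕ := fun d => ∏ r ∈ good d B, r
  let T : ℤ → Finset ℕ := fun d => d.natAbs.primeFactors.filter (fun r => r ∣ B)
  have hTm : ∀ d ∈ A, (∏ r ∈ T d, r) * m d = d.natAbs := by
    intro d hd
    have h3 : Squarefree d.natAbs := Int.squarefree_natAbs.2 (hA d hd).1
    rw [← Nat.prod_primeFactors_of_squarefree h3]
    show (∏ r ∈ d.natAbs.primeFactors.filter (fun r => r ∣ B), r) *
      ∏ r ∈ d.natAbs.primeFactors.filter (fun r => ¬ r ∣ B), r = _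
    rw [Finset.prod_filter_mul_prod_filter_not]
  have hmdvd : ∀ d ∈ A, m d ∣ d.natAbs := fun d hd => ⟨_, by rw [mul_comm]; exact (hTm d hd).symm⟩
  have hd0 : ∀ d ∈ A, d.natAbs ≠ 0 := fun d hd => by
    rw [Int.natAbs_ne_zero]
    exact (hA d hd).1.ne_zero
  -- the sets of the `m d` for fixed `u`
  let Au : U → Finset ℕ := fun u => (A.filter (fun d => ud d = some u)).image m
  have hAu : ∀ u, ((Au u).card : ℝ) ≤ C * N * (Real.log N) ^ (-δ) := by
    intro u
    refine hC (kap u) N hN (Au u) ?_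
    intro mm hmm
    obtain ⟨d, hd, rfl⟩ := Finset.mem_image.1 hmm
    rw [Finset.mem_filter] at hd
    obtain ⟨hd, hdu⟩ := hd
    obtain ⟨u0, -, hu0, hD⟩ := hud d hd
    have hu : u0 = u := Option.some_injective _ (hu0.symm.trans hdu)
    subst hu
    refine ⟨?_, ?_, ?_, hD⟩
    · refine (Nat.le_of_dvd (Nat.pos_of_ne_zero (hd0 d hd)) (hmdvd d hd)).trans ?_
      have h3 := (hA d hd).2.1
      rw [Int.abs_eq_natAbs] at h3
      exact_mod_cast h3
    · show Odd (∏ r ∈ good d B, r)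
      refine Finset.prod_induction _ Odd (fun _ _ h3 h4 => h3.mul h4) odd_one ?_
      intro r hr
      rcases (prime_of_good hr).eq_two_or_odd' with h3 | h3
      · subst h3
        exact absurd h2 (Finset.mem_filter.1 hr).2
      · exact h3
    · exact Squarefree.squarefree_of_dvd (hmdvd d hd) (Int.squarefree_natAbs.2 (hA d hd).1)
  -- the injection
  let X : Finset ((Bool × Finset ℕ) × (Σ _ : U, ℕ)) :=
    ((Finset.univ : Finset Bool) ×ˢ B.primeFactors.powerset) ×ˢ (UU.sigma fun u => Au u)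
  have hcard : A.card ≤ X.card := by
    have hne : ∀ d ∈ A, ∃ u0 ∈ UU, ud d = some u0 := fun d hd => by
      obtain ⟨u0, h3, h4, -⟩ := hud d hd
      exact ⟨u0, h3, h4⟩
    rcases A.eq_empty_or_nonempty with hA0 | ⟨d0, hd0'⟩
    · rw [hA0]
      exact Nat.zero_le _
    obtain ⟨uu0, -, -⟩ := hne d0 hd0'
    refine Finset.card_le_card_of_injOn
      (fun d => ((decide (0 ≤ d), T d), ⟨(ud d).getD uu0, m d⟩)) ?_ ?_
    · intro d hd
      have hd' : d ∈ A := hd
      obtain ⟨u0, h3, h4⟩ := hne d hd'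
      refine Finset.mem_coe.2 (Finset.mem_product.2 ⟨Finset.mem_product.2 ⟨Finset.mem_univ _, ?_⟩,
        Finset.mem_sigma.2 ⟨?_, ?_⟩⟩)
      · show T d ∈ B.primeFactors.powerset
        rw [Finset.mem_powerset]
        intro r hr
        rw [Finset.mem_filter] at hr
        exact Nat.mem_primeFactors.2 ⟨Nat.prime_of_mem_primeFactors hr.1, hr.2, hB0⟩
      · show (ud d).getD uu0 ∈ UU
        rw [h4]
        exact h3
      · show m d ∈ Au ((ud d).getD uu0)
        rw [h4]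
        exact Finset.mem_image_of_mem _ (Finset.mem_filter.2 ⟨hd', h4⟩)
    · intro d hd d' hd' h
      have hd1 : d ∈ A := hd
      have hd1' : d' ∈ A := hd'
      simp only [Prod.mk.injEq, Sigma.mk.injEq, heq_eq_eq] at h
      obtain ⟨⟨h3, h4⟩, -, h5⟩ := h
      have h6 : d.natAbs = d'.natAbs := by
        rw [← hTm d hd1, ← hTm d' hd1', h4, h5]
      rcases Int.natAbs_eq_natAbs_iff.1 h6 with h7 | h7
      · exact h7
      · have h8 : (0 ≤ d) ↔ (0 ≤ d') := decide_eq_decide.1 h3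
        have h9 := hd0 d hd1
        omega
  have hXcard : (X.card : ℝ) = 2 * 2 ^ B.primeFactors.card * ∑ u ∈ UU, ((Au u).card : ℝ) := by
    have h3 : X.card = (2 * 2 ^ B.primeFactors.card) * ∑ u ∈ UU, (Au u).card := by
      show (((Finset.univ : Finset Bool) ×ˢ B.primeFactors.powerset) ×ˢ
        (UU.sigma fun u => Au u)).card = _
      rw [Finset.card_product, Finset.card_product, Finset.card_sigma, Finset.card_powerset]
      rfl
    rw [h3]
    push_cast
    ring
  calc (A.card : ℝ) ≤ (X.card : ℝ) := by exact_mod_cast hcard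
    _ = 2 * 2 ^ B.primeFactors.card * ∑ u ∈ UU, ((Au u).card : ℝ) := hXcard
    _ ≤ 2 * 2 ^ B.primeFactors.card * ∑ _u ∈ UU, (C * N * (Real.log N) ^ (-δ)) := by
        refine mul_le_mul_of_nonneg_left (Finset.sum_le_sum fun u _ => hAu u) (by positivity)
    _ = ((2 * 2 ^ B.primeFactors.card * UU.card : ℕ) : ℝ) * C * N * (Real.log N) ^ (-δ) := by
        rw [Finset.sum_const, nsmul_eq_mul]
        push_cast
        ring

end Pool.Agent.Helper13.LV
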