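import Pool.Agent.Helper11.TW.Count
import Pool.Agent.Helper13.LV.CountGen
import Pool.Agent.Helper36.LV.Pell

/-!
# Twists of products of elliptic curves and norm tori: the count

The bits of a type: two for each elliptic curve, one for each torus factor.
-/

namespace Pool.Agent.Helper13.LV

open Helper11.TW

private theorem decode_code : ∀ t, Count_decode (code t false) (code t true) = t := by decide

private theorem oth_iff : ∀ (t0 : Option (Fin 3)) (b : Bool) (t : Option (Fin 3)),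
    code t b ≠ code t0 b ↔ (t = Count_o1 t0 b ∨ t = Count_o2 t0 b) := by decide

private theorem oth_ne : ∀ (t0 : Option (Fin 3)) (b : Bool),
    Count_o1 t0 b ≠ Count_o2 t0 b ∧ Count_o1 t0 b ≠ t0 ∧ Count_o2 t0 b ≠ t0 := by decide

/-- the bits -/
abbrev Bits (n m : ℕ) : Type := (Fin n × Bool) ⊕ Fin m

/-- the types of the elliptic curves encoded by the bits -/
def decE {n m : ℕ} (e : Bits n m → Bool) : Fin n → Option (Fin 3) :=
  Count_dec (fun j => e (Sum.inl j))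

/-- the types of the tori encoded by the bits -/
def decT {n m : ℕ} (e : Bits n m → Bool) : Fin m → Bool := fun j => e (Sum.inr j)

/-- the Jacobi symbols that depend only on the classes -/
def kap {n m : ℕ} (a : Fin n → Fin 3 → ℤ) (u : (Fin n → Option (Fin 3) → ℤ) × (Fin m → Bool → ℤ))
    (e : Bits n m → Bool) (j : Bits n m) (r : ℕ) : ℤ :=
  match j with
  | Sum.inl j => Count_kap a u.1 (fun j => e (Sum.inl j)) j r
  | Sum.inr j => jacobiSym (u.2 j (e (Sum.inr j))) r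

/-- the symbol for a bit of an elliptic curve -/
private theorem symE {n : ℕ} (a : Fin n → Fin 3 → ℤ) (B : ℕ) (d : ℤ)
    (τ : Fin n → ℕ → Option (Fin 3)) (u : Fin n → Option (Fin 3) → ℤ) (i : Fin n) (b : Bool) (r : ℕ)
    (hj : ∀ t t', t ≠ t' → t ≠ τ i r → t' ≠ τ i r →
      jacobiSym (u i t * u i t' * lin (a i) t (rep (a i) (τ i r)).1 (rep (a i) (τ i r)).2 *
        lin (a i) t' (rep (a i) (τ i r)).1 (rep (a i) (τ i r)).2 *
          (part d B (τ i) t : ℤ) * (part d B (τ i) t' : ℤ)) r = 1) :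
    jacobiSym (∏ x ∈ (good d B).filter (fun x => code (τ i x) b ≠ code (τ i r) b), (x : ℤ)) r =
        Count_kap a u (fun j => code (τ j.1 r) j.2) (i, b) r ∧
      Count_kap a u (fun j => code (τ j.1 r) j.2) (i, b) r ≠ 0 := by
  classical
  have hprod : ∏ x ∈ (good d B).filter (fun x => code (τ i x) b ≠ code (τ i r) b), (x : ℤ) =
      (part d B (τ i) (Count_o1 (τ i r) b) : ℤ) * (part d B (τ i) (Count_o2 (τ i r) b) : ℤ) := by
    have h2 : (good d B).filter (fun x => code (τ i x) b ≠ code (τ i r) b) =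
        (good d B).filter (fun x => τ i x = Count_o1 (τ i r) b) ∪
          (good d B).filter (fun x => τ i x = Count_o2 (τ i r) b) := by
      rw [← Finset.filter_or]
      refine Finset.filter_congr ?_
      intro x _
      exact oth_iff (τ i r) b (τ i x)
    rw [h2, Finset.prod_union]
    · unfold part
      push_cast
      rfl
    · rw [Finset.disjoint_filter]
      intro x _ h3 h4
      exact (oth_ne (τ i r) b).1 (h3.symm.trans h4)
  have hdec : Count_dec (fun j : Fin n × Bool => code (τ j.1 r) j.2) = fun i => τ i r := by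
    funext i
    exact decode_code _
  have hne := oth_ne (τ i r) b
  have hJ := hj (Count_o1 (τ i r) b) (Count_o2 (τ i r) b) hne.1 hne.2.1 hne.2.2
  have hkap : Count_kap a u (fun j => code (τ j.1 r) j.2) (i, b) r =
      jacobiSym (u i (Count_o1 (τ i r) b) * u i (Count_o2 (τ i r) b) *
        lin (a i) (Count_o1 (τ i r) b) (rep (a i) (τ i r)).1 (rep (a i) (τ i r)).2 *
        lin (a i) (Count_o2 (τ i r) b) (rep (a i) (τ i r)).1 (rep (a i) (τ i r)).2) r := by
    unfold Count_kap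
    rw [hdec]
  rw [mul_assoc (u i (Count_o1 (τ i r) b) * u i (Count_o2 (τ i r) b) * _ * _),
    jacobiSym.mul_left, ← hkap, ← hprod] at hJ
  have hJ' := Int.eq_one_or_neg_one_of_mul_eq_one' hJ
  rcases hJ' with ⟨h1, h2⟩ | ⟨h1, h2⟩
  · rw [h1, h2]
    exact ⟨rfl, one_ne_zero⟩
  · rw [h1, h2]
    exact ⟨rfl, by decide⟩

/-- the symbol for the bit of a torus -/
private theorem symT (B : ℕ) (d : ℤ) (τ : ℕ → Bool) (u : Bool → ℤ) (r : ℕ)
    (hj : jacobiSym (u (τ r) * (part d B τ (!τ r) : ℤ)) r = 1) :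
    jacobiSym (∏ x ∈ (good d B).filter (fun x => τ x ≠ τ r), (x : ℤ)) r = jacobiSym (u (τ r)) r ∧
      jacobiSym (u (τ r)) r ≠ 0 := by
  have hprod : ∏ x ∈ (good d B).filter (fun x => τ x ≠ τ r), (x : ℤ) =
      (part d B τ (!τ r) : ℤ) := by
    unfold part
    push_cast
    refine Finset.prod_congr (Finset.filter_congr fun x _ => ?_) (fun _ _ => rfl)
    cases τ x <;> cases τ r <;> simp
  rw [hprod]
  rw [jacobiSym.mul_left] at hj
  rcases Int.eq_one_or_neg_one_of_mul_eq_one' hj with ⟨h1, h2⟩ | ⟨h1, h2⟩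
  · rw [h1, h2]
    exact ⟨rfl, one_ne_zero⟩
  · rw [h1, h2]
    exact ⟨rfl, by decide⟩

/-- The number of twists with an integral point of restricted type. -/
theorem lv_count (hHB : HBS2) (n m : ℕ) (a : Fin n → Fin 3 → ℤ) (ha : ∀ i, Function.Injective (a i))
    (B₀ : ℕ) (hB₀ : B₀ ≠ 0) (S : (Fin n → Option (Fin 3)) → (Fin m → Bool) → ℕ → Prop) (κ₀ : ℝ)
    (hS : ∀ ε η, DensePrimes κ₀ (S ε η)) (δ : ℝ) (hδ : 0 < δ) (hδκ : δ < κ₀) :
    ∃ C : ℝ, ∀ N : ℕ, 2 ≤ N → ∀ A : Finset ℤ,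
      (∀ d ∈ A, Squarefree d ∧ |d| ≤ N ∧ ∃ (p q w : Fin n → ℤ) (x y M : Fin m → ℤ),
        (∀ i, IsCoprime (p i) (q i) ∧ d * w i ^ 2 = quartic (a i) (p i) (q i)) ∧
        (∀ j, M j ≠ 0 ∧ (∀ r : ℕ, r.Prime → (r : ℤ) ∣ M j → r ∣ B₀) ∧
          x j ^ 2 - d * y j ^ 2 = M j ^ 2) ∧
        ∀ r : ℕ, r.Prime → ¬ r ∣ B₀ → (r : ℤ) ∣ d →
          ∀ (ε : Fin n → Option (Fin 3)) (η : Fin m → Bool),
          (∀ i, (r : ℤ) ∣ lin (a i) (ε i) (p i) (q i)) →
          (∀ j, (r : ℤ) ∣ (if η j then x j - M j else x j + M j)) → ¬ S ε η r) →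
      (A.card : ℝ) ≤ C * N * (Real.log N) ^ (-δ) := by
  classical
  -- the bad primes
  set B : ℕ := 2 * (B₀ * ∏ i, ((a i 0 - a i 1) * (a i 1 - a i 2) * (a i 2 - a i 0)).natAbs)
    with hBdef
  have hdiff : ∀ i, ∀ j k, j ≠ k → a i j - a i k ≠ 0 := by
    intro i j k hjk h
    exact hjk (ha i (sub_eq_zero.1 h))
  have hB0 : B ≠ 0 := by
    rw [hBdef]
    refine mul_ne_zero two_ne_zero (mul_ne_zero hB₀ (Finset.prod_ne_zero_iff.2 fun i _ => ?_))
    rw [Int.natAbs_ne_zero]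
    exact mul_ne_zero (mul_ne_zero (hdiff i 0 1 (by decide)) (hdiff i 1 2 (by decide)))
      (hdiff i 2 0 (by decide))
  have h2 : 2 ∣ B := Dvd.intro _ rfl
  have hB₀B : B₀ ∣ B := (Dvd.intro _ rfl : B₀ ∣ B₀ * _).trans (Dvd.intro_left _ rfl)
  have hBi : ∀ i, ((a i 0 - a i 1) * (a i 1 - a i 2) * (a i 2 - a i 0)) ∣ (B : ℤ) := by
    intro i
    rw [← Int.natAbs_dvd]
    exact_mod_cast ((Finset.dvd_prod_of_mem (fun i =>
      ((a i 0 - a i 1) * (a i 1 - a i 2) * (a i 2 - a i 0)).natAbs) (Finset.mem_univ i)).trans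
        (Dvd.intro_left _ rfl)).trans (Dvd.intro_left _ rfl)
  have hB : ∀ i, ∀ j k, j ≠ k → (a i j - a i k) ∣ (B : ℤ) := by
    intro i j k hjk
    refine Dvd.dvd.trans ?_ (hBi i)
    have e01 : (a i 0 - a i 1) ∣ (a i 0 - a i 1) * (a i 1 - a i 2) * (a i 2 - a i 0) :=
      ⟨(a i 1 - a i 2) * (a i 2 - a i 0), by ring⟩
    have e12 : (a i 1 - a i 2) ∣ (a i 0 - a i 1) * (a i 1 - a i 2) * (a i 2 - a i 0) :=
      ⟨(a i 0 - a i 1) * (a i 2 - a i 0), by ring⟩
    have e20 : (a i 2 - a i 0) ∣ (a i 0 - a i 1) * (a i 1 - a i 2) * (a i 2 - a i 0) :=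
      ⟨(a i 0 - a i 1) * (a i 1 - a i 2), by ring⟩
    have e10 : (a i 1 - a i 0) ∣ (a i 0 - a i 1) * (a i 1 - a i 2) * (a i 2 - a i 0) := by
      rw [← neg_sub, neg_dvd]
      exact e01
    have e21 : (a i 2 - a i 1) ∣ (a i 0 - a i 1) * (a i 1 - a i 2) * (a i 2 - a i 0) := by
      rw [← neg_sub, neg_dvd]
      exact e12
    have e02 : (a i 0 - a i 2) ∣ (a i 0 - a i 1) * (a i 1 - a i 2) * (a i 2 - a i 0) := by
      rw [← neg_sub, neg_dvd]
      exact e20
    fin_cases j <;> fin_cases k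
    · exact absurd rfl hjk
    · exact e01
    · exact e02
    · exact e10
    · exact absurd rfl hjk
    · exact e12
    · exact e20
    · exact e21
    · exact absurd rfl hjk
  choose U hU1 hU2 using fun i => descent_one (a i) (ha i) B hB0 h2 (hB i)
  obtain ⟨W, -, hW2⟩ := Helper36.LV.pell_one B hB0 h2
  let UU : Finset ((Fin n → Option (Fin 3) → ℤ) × (Fin m → Bool → ℤ)) :=
    Fintype.piFinset U ×ˢ Fintype.piFinset (fun _ => W)
  obtain ⟨C, hC⟩ := hHB (Bits n m) (fun e r => S (decE e) (decT e) r) κ₀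
    (fun e => hS (decE e) (decT e)) δ hδ hδκ
  refine ⟨((2 * 2 ^ B.primeFactors.card * UU.card : ℕ) : ℝ) * C, ?_⟩
  intro N hN A hA
  refine count_gen B hB0 h2 (fun e r => S (decE e) (decT e) r) C δ hC UU (kap a) N hN A ?_
  intro d hd
  obtain ⟨hsq, hdN, p, q, w, x, y, M, hpq, hxy, hr⟩ := hA d hd
  refine ⟨hsq, hdN, ?_⟩
  choose u hu τ hτ using fun i => hU2 i d (p i) (q i) (w i) hsq (hpq i).1 (hpq i).2
  choose v hv σ hσ using fun j => hW2 d (x j) (y j) (M j) hsq (hxy j).1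
    (fun r hrp hrM => ((hxy j).2.1 r hrp hrM).trans hB₀B) (hxy j).2.2
  refine ⟨(u, v), Finset.mem_product.2 ⟨Fintype.mem_piFinset.2 hu, Fintype.mem_piFinset.2 hv⟩,
    fun r => Sum.elim (fun j => code (τ j.1 r) j.2) (fun j => σ j r), ?_⟩
  intro r hrg
  refine ⟨?_, ?_⟩
  · have hdec : decE (n := n) (m := m) (Sum.elim (fun j => code (τ j.1 r) j.2) (fun j => σ j r)) =
        fun i => τ i r := by
      funext i
      exact decode_code _
    rw [hdec]
    refine hr r (prime_of_good hrg) (fun h => not_dvd_of_good hrg (h.trans hB₀B)) (dvd_of_good hrg)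
      _ _ (fun i => (hτ i r hrg).1) (fun j => ?_)
    exact (hσ j r hrg).1
  · rintro (⟨i, b⟩ | j)
    · exact symE a B d τ u i b r (hτ i r hrg).2
    · exact symT B d (σ j) (v j) r (hσ j r hrg).2

end Pool.Agent.Helper13.LV
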