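import Pool.Agent.Helper36.TW.Final
import Pool.Agent.Helper13.LV.Count
import Pool.Agent.Helper36.LV.Red
import Pool.Agent.Helper81.LV.Geo

/-!
# Integral points of varieties over almost all quadratic twists of a semiabelian variety

Let `Eᵢ : y² = (x - a i 0) (x - a i 1) (x - a i 2)`, `1 ≤ i ≤ n`, be elliptic curves over `ℚ` with full
rational two-torsion, let `G = ∏ Eᵢ × 𝔾ₘ ^ m`, and let `G_d = ∏ Eᵢᵈ × T_d ^ m` be the quadratic twists of
`G` by the involution `-1`: `Eᵢᵈ : d y² = (x - a i 0) (x - a i 1) (x - a i 2)`, `T_d : u² - d v² = 1`.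
(For `n = 0` and every nonsquare `d > 0` the integral points of `G_d` are Zariski dense.)
For each of the `4 ^ n * 2 ^ m` two-torsion points `e` let `R e` be a set of primes of lower density at
least `κ > 0`.  We show that for all squarefree `d`, `|d| ≤ N`, outside an exceptional set of size
`O(N (log N) ^ (-δ))`, for any `δ < κ`, *all* schemes `U` projective over `G_d` that have, for the primes
`r ∣ d` in `R e`, no point modulo `r` over `e`, have no point over `ℤ[1/B]`.  In particular let `U → G`
be a projective morphism with an involution of `U` lying over `-1` (for example a double cover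
`z² = F` of `G`, `F` invariant) and `R e` the set of primes `r` such that the fibre over `e` of the
quotient has no point modulo `r` (for `z² = F`: such that `F(e)` is not a square modulo `r`); then 100
percent of the quadratic twists `U_d` have no `ℤ[1/B]`-point.
-/

open AlgebraicGeometry CategoryTheory

namespace Pool.Agent.Results.MP_26d9ad_nt.SemiabelianTwists

/-- `P` is a rational point of the elliptic curve `Eᵈ : d y² = (x - a 0) (x - a 1) (x - a 2)`: `none` is
the origin (the point at infinity), `some (x, y)` is an affine point. -/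
def OnTwist (a : Fin 3 → ℤ) (d : ℤ) : Option (ℚ × ℚ) → Prop
  | none => True
  | some (x, y) => (d : ℚ) * y ^ 2 = (x - a 0) * (x - a 1) * (x - a 2)

/-- Homogeneous coordinates `(p, q, w)`, of weights `1, 1, 2`, of a point of `Eᵈ`, which is the curve
`d w² = q (p - a 0 q) (p - a 1 q) (p - a 2 q)`. -/
def coord : Option (ℚ × ℚ) → Fin 3 → ℚ
  | none => ![1, 0, 0]
  | some (x, y) => ![x, 1, y]

/-- The rational number `z` is in `ℤ[1/B]`. -/
def InRing (B : ℕ) (z : ℚ) : Prop := ∀ r : ℕ, r.Prime → r ∣ z.den → r ∣ B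

/-- `(u, v)` is a point with coordinates in `ℤ[1/B]` of the torus `T_d : u² - d v² = 1`, the quadratic
twist of the multiplicative group. -/
def OnTorus (B : ℕ) (d : ℤ) (u v : ℚ) : Prop :=
  u ^ 2 - d * v ^ 2 = 1 ∧ InRing B u ∧ InRing B v

/-- The point over `e`, with third coordinate `w`: here `e` is one of the four branch points `∞`
(`none`), `a 0`, `a 1`, `a 2` of the map `(p : q)` to the projective line. -/
def branch {R : Type*} [CommRing R] (a : Fin 3 → ℤ) (e : Option (Fin 3)) (w : R) : Fin 3 → R :=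
  match e with
  | none => ![1, 0, w]
  | some j => ![(a j : R), 1, w]

/-- The variables: `ζ s` (`s ∈ σ`), the coordinates `(p i, q i, w i)` of the point of `Eᵢᵈ`, and the
coordinates `(u j, v j)` of the `j`-th point of `T_d`. -/
abbrev Vars (n m : ℕ) (σ : Type) : Type := σ ⊕ ((Fin n × Fin 3) ⊕ (Fin m × Fin 2))

/-- `G` is a multihomogeneous polynomial in the variables `ζ s` and `(p i, q i, w i)`, whose
coefficients are polynomials in the `u j`, `v j`; that is, an equation in the projective bundle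
`ℙ(⨁ s, O(k s 1, …, k s n))` over a product of curves in `ℙ(1, 1, 2)` and affine curves: homogeneous of
some degree `D` in `ζ`, and for each `i` homogeneous of some degree `δ i` if `ζ s` has degree `k s i`,
and `p i`, `q i`, `w i` have degree `1, 1, 2`. -/
def IsMultihomogeneous {n m : ℕ} {σ : Type} [Fintype σ] (k : σ → Fin n → ℕ)
    (G : MvPolynomial (Vars n m σ) ℤ) : Prop :=
  ∃ (D : ℕ) (δ : Fin n → ℕ), ∀ μ ∈ G.support, (∑ s, μ (Sum.inl s) = D) ∧
    ∀ i, (∑ s, μ (Sum.inl s) * k s i) + μ (Sum.inr (Sum.inl (i, 0))) +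
      μ (Sum.inr (Sum.inl (i, 1))) + 2 * μ (Sum.inr (Sum.inl (i, 2))) = δ i

/-- The point with coordinates `ζ s`, `(p i, q i, w i) = (x (i, 0), x (i, 1), x (i, 2))` and
`(u j, v j)` satisfies all equations in `I`. -/
def Satisfies {n m : ℕ} {σ : Type} {R : Type*} [CommRing R]
    (I : Set (MvPolynomial (Vars n m σ) ℤ)) (ζ : σ → R) (x : Fin n × Fin 3 → R)
    (u v : Fin m → R) : Prop :=
  ∀ G ∈ I, MvPolynomial.aeval (Sum.elim ζ (Sum.elim x (fun j => ![u j.1, v j.1] j.2))) G = 0

/-- The scheme with equations `I` has no point over the field with `r` elements over the branch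
points `e i` and `u j = η j`, where `η j` is `1` or `-1`. -/
def EmptyFibre {n m : ℕ} {σ : Type} (a : Fin n → Fin 3 → ℤ)
    (I : Set (MvPolynomial (Vars n m σ) ℤ)) (e : Fin n → Option (Fin 3)) (η : Fin m → Bool)
    (r : ℕ) : Prop :=
  ¬ ∃ (ζ : σ → ZMod r) (w : Fin n → ZMod r) (v : Fin m → ZMod r), ζ ≠ 0 ∧
    Satisfies I ζ (fun j => branch (a j.1) (e j.1) (w j.1) j.2)
      (fun j => if η j then 1 else -1) v

/-- `(P, (u, v), ζ)` is a `ℤ[1/B]`-point of the scheme over `G_d = ∏ Eᵢᵈ × T_d ^ m` with equations `I`,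
that is, a rational point over a point of `G_d` whose coordinates `u`, `v` are in `ℤ[1/B]`. -/
def IsPoint {n m : ℕ} {σ : Type} (a : Fin n → Fin 3 → ℤ) (B : ℕ)
    (I : Set (MvPolynomial (Vars n m σ) ℤ)) (d : ℤ) (P : Fin n → Option (ℚ × ℚ))
    (u v : Fin m → ℚ) (ζ : σ → ℚ) : Prop :=
  (∀ i, OnTwist (a i) d (P i)) ∧ (∀ j, OnTorus B d (u j) (v j)) ∧ ζ ≠ 0 ∧
    Satisfies I ζ (fun j => coord (P j.1) j.2) u v

open Classical in
/-- The set `R` of primes has lower density at least `κ` in the following sense: the sum of `1 / r`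
over the primes `r ≤ x` in `R` is at least `κ log log x - K`, for some `K` and all `x ≥ 2`.  For
example the primes in a coprime residue class modulo `M` have density `1 / φ(M)`, and the primes
modulo which an integer `c` is not a square have density `1 / 2` if `c` is not a square. -/
def LowerDensity (κ : ℝ) (R : Set ℕ) : Prop :=
  ∃ K : ℝ, ∀ x : ℕ, 2 ≤ x → κ * Real.log (Real.log x) - K ≤
    ∑ r ∈ (Finset.Icc 1 x).filter (fun r => r.Prime ∧ r ∈ R), (1 / r : ℝ)

/-- The value of the global function `g` at the rational point `s`. -/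
noncomputable def value {V : Scheme.{0}} (s : Spec (CommRingCat.of ℚ) ⟶ V) (g : Γ(V, ⊤)) : ℚ :=
  (Scheme.ΓSpecIso (CommRingCat.of ℚ)).hom.hom (s.appTop.hom g)

/-- The global function `g` as an element of the function field. -/
noncomputable def germ {V : Scheme.{0}} [IsIntegral V] (g : Γ(V, ⊤)) : V.functionField :=
  (V.presheaf.germ ⊤ (genericPoint V) trivial).hom g

/-- The set of the rational points of a scheme `V` over `ℚ` at which the global functions `u j`, `v j`
take values in `ℤ[1/B]`, as a set of points of `V`. -/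
def integralPoints {m : ℕ} {V : Scheme.{0}} (f : V ⟶ Spec (CommRingCat.of ℚ)) (B : ℕ)
    (u v : Fin m → Γ(V, ⊤)) : Set V :=
  {P | ∃ s : Spec (CommRingCat.of ℚ) ⟶ V, (s ≫ f = 𝟙 _ ∧
    ∀ j, InRing B (value s (u j)) ∧ InRing B (value s (v j))) ∧
      s (IsLocalRing.closedPoint ℚ) = P}

/-- **Main theorem.**  Let `Eᵢ : y² = (x - a i 0) (x - a i 1) (x - a i 2)`, `i ≤ n`, be elliptic
curves, let `m` and `B ≥ 1` be integers, let `R e η` be sets of primes of lower density at least `κ`,
where `(e, η)` runs through the `4 ^ n * 2 ^ m` two-torsion points of `G = ∏ Eᵢ × 𝔾ₘ ^ m`, and let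
`0 < δ < κ`.  There is a set `S` of integers, with at most `C N (log N) ^ (-δ)` elements in `[-N, N]`,
such that for all squarefree `d ∉ S` and all schemes projective over `G_d = ∏ Eᵢᵈ × T_d ^ m`, given
by any set `I` of equations, the following holds.  If the scheme has no point modulo `r` over
`(e, η)` for all `(e, η)` and all primes `r ∣ d` in `R e η` not dividing `B`, then it has no point over
`ℤ[1/B]`, and for every integral scheme `V` over `ℚ` with functions `u`, `v` and `x`, `y`, `ζ` in the
function field that satisfy the equations, the rational points of `V` with values of `u` and `v` in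
`ℤ[1/B]` are not dense in `V`. -/
theorem result (n m : ℕ) (a : Fin n → Fin 3 → ℤ) (ha : ∀ i, Function.Injective (a i))
    (B : ℕ) (hB : B ≠ 0) (κ : ℝ) (R : (Fin n → Option (Fin 3)) → (Fin m → Bool) → Set ℕ)
    (hR : ∀ e η, LowerDensity κ (R e η)) (δ : ℝ) (hδ : 0 < δ) (hδκ : δ < κ) :
    ∃ (S : Set ℤ) (C : ℝ),
      (∀ N : ℕ, 2 ≤ N → (Nat.card {d : ℤ // d ∈ S ∧ |d| ≤ N} : ℝ) ≤ C * N * (Real.log N) ^ (-δ)) ∧
      ∀ d : ℤ, Squarefree d → d ∉ S →
        ∀ (σ : Type) [Fintype σ] (k : σ → Fin n → ℕ) (I : Set (MvPolynomial (Vars n m σ) ℤ)),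
          (∀ G ∈ I, IsMultihomogeneous k G) →
          (∀ e η, ∀ r ∈ R e η, r.Prime → (r : ℤ) ∣ d → ¬ r ∣ B → EmptyFibre a I e η r) →
          (∀ P u v ζ, ¬ IsPoint a B I d P u v ζ) ∧
          ∀ (V : Scheme.{0}) [IsIntegral V] (f : V ⟶ Spec (CommRingCat.of ℚ))
            (x y : Fin n → V.functionField) (u v : Fin m → Γ(V, ⊤)) (ζ : σ → V.functionField),
            (∀ i, (d : V.functionField) * y i ^ 2 = (x i - (a i 0 : V.functionField)) *
              (x i - (a i 1 : V.functionField)) * (x i - (a i 2 : V.functionField))) →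
            (∀ j, u j ^ 2 - (d : Γ(V, ⊤)) * v j ^ 2 = 1) →
            ζ ≠ 0 → Satisfies I ζ (fun j => ![x j.1, 1, y j.1] j.2) (fun j => germ (u j))
              (fun j => germ (v j)) →
            ¬ Dense (integralPoints f B u v) := by
  classical
  obtain ⟨C, hC⟩ := Pool.Agent.Helper13.LV.lv_count Pool.Agent.Helper36.TW.HB_final n m a ha B hB
    (fun e η r => r ∈ R e η) κ (fun e η => hR e η) δ hδ hδκ
  -- the exceptional set
  let Q : ℤ → Prop := fun d => ∃ (p q w : Fin n → ℤ) (x y M : Fin m → ℤ),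
    (∀ i, IsCoprime (p i) (q i) ∧
      d * w i ^ 2 = Pool.Agent.Helper11.TW.quartic (a i) (p i) (q i)) ∧
    (∀ j, M j ≠ 0 ∧ (∀ r : ℕ, r.Prime → (r : ℤ) ∣ M j → r ∣ B) ∧
      x j ^ 2 - d * y j ^ 2 = M j ^ 2) ∧
    ∀ r : ℕ, r.Prime → ¬ r ∣ B → (r : ℤ) ∣ d →
      ∀ (ε : Fin n → Option (Fin 3)) (η : Fin m → Bool),
      (∀ i, (r : ℤ) ∣ Pool.Agent.Helper11.TW.lin (a i) (ε i) (p i) (q i)) →
      (∀ j, (r : ℤ) ∣ (if η j then x j - M j else x j + M j)) → ¬ (r ∈ R ε η)
  have key : ∀ d : ℤ, Squarefree d → ∀ (σ : Type) [Fintype σ] (k : σ → Fin n → ℕ)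
      (I : Set (MvPolynomial (Vars n m σ) ℤ)), (∀ G ∈ I, IsMultihomogeneous k G) →
      (∀ e η, ∀ r ∈ R e η, r.Prime → (r : ℤ) ∣ d → ¬ r ∣ B → EmptyFibre a I e η r) →
      ∀ P u v ζ, IsPoint a B I d P u v ζ → Q d := by
    intro d hd σ _ k I hI hfib P u v ζ hP
    obtain ⟨h1, hT, h2, h3⟩ := hP
    obtain ⟨ζ', x', hs, hc, hr⟩ := Pool.Agent.Helper36.LV.mexists_integral a k I hI d hd ζ h2
      (fun j => coord (P j.1) j.2) (fun j => ![u j.1, v j.1] j.2)
      (by
        intro i
        show coord (P i) 0 ≠ 0 ∨ coord (P i) 1 ≠ 0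
        rcases P i with _ | ⟨x, y⟩
        · left; simp [coord]
        · right; simp [coord])
      (by
        intro i
        have := h1 i
        show (d : ℚ) * coord (P i) 2 ^ 2 = coord (P i) 1 * (coord (P i) 0 - a i 0 * coord (P i) 1) *
          (coord (P i) 0 - a i 1 * coord (P i) 1) * (coord (P i) 0 - a i 2 * coord (P i) 1)
        revert this
        rcases P i with _ | ⟨x, y⟩
        · intro _; simp [coord]
        · intro this
          simp only [OnTwist] at this
          simp only [coord, Matrix.cons_val_zero, Matrix.cons_val_one, Matrix.cons_val, mul_one,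
            one_mul]
          exact this)
      h3
    refine ⟨fun i => x' (i, 0), fun i => x' (i, 1), fun i => x' (i, 2),
      fun j => (u j).num * (v j).den, fun j => (v j).num * (u j).den,
      fun j => ((u j).den : ℤ) * ((v j).den : ℤ), hc, ?_, ?_⟩
    · intro j
      obtain ⟨h4, h5, h6⟩ := hT j
      refine ⟨?_, ?_, ?_⟩
      · exact mul_ne_zero (by exact_mod_cast (u j).den_ne_zero) (by exact_mod_cast (v j).den_ne_zero)
      · intro r hrp hrM
        have h6' : (r : ℤ) ∣ ((u j).den : ℤ) * ((v j).den : ℤ) := hrM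
        have h7 : r ∣ (u j).den * (v j).den := by exact_mod_cast h6'
        rcases (Nat.Prime.dvd_mul hrp).1 h7 with h8 | h8
        · exact h5 r hrp h8
        · exact h6 r hrp h8
      · have hu0 : ((u j).den : ℚ) ≠ 0 := by exact_mod_cast (u j).den_ne_zero
        have hv0 : ((v j).den : ℚ) ≠ 0 := by exact_mod_cast (v j).den_ne_zero
        have hu : ((u j).num : ℚ) = u j * (u j).den := (Rat.mul_den_eq_num (u j)).symm
        have hv : ((v j).num : ℚ) = v j * (v j).den := (Rat.mul_den_eq_num (v j)).symm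
        have h7 : (((u j).num * ((v j).den : ℤ)) ^ 2 - d * ((v j).num * ((u j).den : ℤ)) ^ 2 : ℚ) =
            (((u j).den : ℚ) * ((v j).den : ℚ)) ^ 2 := by
          push_cast
          rw [hu, hv]
          have h8 : (u j * (u j).den * (v j).den) ^ 2 - d * (v j * (v j).den * (u j).den) ^ 2 =
              (u j ^ 2 - d * v j ^ 2) * (((u j).den : ℚ) * ((v j).den : ℚ)) ^ 2 := by ring
          rw [h8, h4, one_mul]
        exact_mod_cast h7
    · intro r hrp hrB hrd ε η hε hη hrR
      refine Pool.Agent.Helper36.LV.mnot_noPoint a k I hI ζ' x' _ hs (fun i => (hc i).1) r hrp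
        ?_ (hr r hrp) ε hε η ?_ ?_
      · rintro ⟨j, b⟩
        fin_cases b
        · exact fun h => hrB ((hT j).2.1 r hrp h)
        · exact fun h => hrB ((hT j).2.2 r hrp h)
      · intro j
        show (r : ℤ) ∣ (u j).num - (if η j then 1 else -1) * ((u j).den : ℤ)
        have h4 := hη j
        have hrp' : Prime (r : ℤ) := Nat.prime_iff_prime_int.1 hrp
        have hv : ¬ (r : ℤ) ∣ ((v j).den : ℤ) := fun h =>
          hrB ((hT j).2.2 r hrp (by exact_mod_cast h))
        cases hηj : η j
        · simp only [hηj, Bool.false_eq_true, if_false] at h4 ⊢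
          have h5 : (u j).num * ((v j).den : ℤ) + ((u j).den : ℤ) * ((v j).den : ℤ) =
            ((u j).num - -1 * ((u j).den : ℤ)) * ((v j).den : ℤ) := by ring
          rw [h5] at h4
          exact (hrp'.dvd_or_dvd h4).resolve_right hv
        · simp only [hηj, if_true] at h4 ⊢
          have h5 : (u j).num * ((v j).den : ℤ) - ((u j).den : ℤ) * ((v j).den : ℤ) =
            ((u j).num - 1 * ((u j).den : ℤ)) * ((v j).den : ℤ) := by ring
          rw [h5] at h4
          exact (hrp'.dvd_or_dvd h4).resolve_right hv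
      · intro ζ₀ w₀ v₀ hsol
        by_contra h0
        refine hfib ε η r hrR hrp hrd hrB ⟨ζ₀, w₀, v₀, h0, ?_⟩
        intro G hG
        have := hsol G hG
        rw [← this]
        congr 2
        funext s
        rcases s with s | ⟨i, j⟩ | ⟨i, j⟩
        · rfl
        · show branch (a i) (ε i) (w₀ i) j =
            (![((Pool.Agent.Helper11.TW.rep (a i) (ε i)).1 : ZMod r),
            ((Pool.Agent.Helper11.TW.rep (a i) (ε i)).2 : ZMod r), w₀ i] : Fin 3 → ZMod r) j
          rcases ε i with _ | t <;> fin_cases j <;> simp [branch, Pool.Agent.Helper11.TW.rep]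
        · rfl
  refine ⟨{d | Squarefree d ∧ Q d}, C, ?_, ?_⟩
  · intro N hN
    have hfin : {d : ℤ | (Squarefree d ∧ Q d) ∧ |d| ≤ (N : ℤ)}.Finite := by
      refine (Set.finite_Icc (-(N : ℤ)) (N : ℤ)).subset ?_
      intro d hd
      exact abs_le.mp hd.2
    have h1 := hC N hN hfin.toFinset (by
      intro d hd
      rw [Set.Finite.mem_toFinset] at hd
      obtain ⟨⟨hsq, hQ⟩, hN'⟩ := hd
      exact ⟨hsq, hN', hQ⟩)
    refine le_trans (le_of_eq ?_) h1
    have : Nat.card {d : ℤ // d ∈ {d : ℤ | Squarefree d ∧ Q d} ∧ |d| ≤ (N : ℤ)} =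
        hfin.toFinset.card := by
      rw [← Set.ncard_eq_toFinset_card _ hfin]
      rfl
    exact_mod_cast this
  · intro d hd hdS σ _ k I hI hfib
    refine ⟨fun P u v ζ hP => hdS ⟨hd, key d hd σ k I hI hfib P u v ζ hP⟩, ?_⟩
    intro V _ f x y u v ζ hxy huv hζ hz hdense
    obtain ⟨s₀, hs₀⟩ := Function.ne_iff.1 hζ
    obtain ⟨s, ⟨hsf, hsB⟩, z', h0, hG⟩ := Pool.Agent.Helper81.LV.specialise_int f
      (τ := σ ⊕ (Fin n ⊕ Fin n)) (υ := Fin m × Fin 2) (Sum.elim ζ (Sum.elim x y))
      (fun j => ![u j.1, v j.1] j.2) (t₀ := Sum.inl s₀) hs₀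
      {s | s ≫ f = 𝟙 _ ∧ ∀ j, InRing B (value s (u j)) ∧ InRing B (value s (v j))}
      (fun s hs => hs.1) hdense
    refine hdS ⟨hd, key d hd σ k I hI hfib
      (fun i => some (z' (Sum.inr (Sum.inl i)), z' (Sum.inr (Sum.inr i))))
      (fun j => value s (u j)) (fun j => value s (v j)) (fun t => z' (Sum.inl t))
      ⟨?_, ?_, ?_, ?_⟩⟩
    · intro i
      have h1 := hG (MvPolynomial.C d * MvPolynomial.X (Sum.inl (Sum.inr (Sum.inr i))) ^ 2 -
        (MvPolynomial.X (Sum.inl (Sum.inr (Sum.inl i))) - MvPolynomial.C (a i 0)) *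
        (MvPolynomial.X (Sum.inl (Sum.inr (Sum.inl i))) - MvPolynomial.C (a i 1)) *
        (MvPolynomial.X (Sum.inl (Sum.inr (Sum.inl i))) - MvPolynomial.C (a i 2))) (by
          simp only [map_sub, map_mul, map_pow, MvPolynomial.aeval_X,
            Sum.elim_inr, Sum.elim_inl, eq_intCast]
          rw [sub_eq_zero]
          simpa using hxy i)
      simp only [map_sub, map_mul, map_pow, MvPolynomial.aeval_X, eq_intCast, Sum.elim_inl] at h1
      rw [sub_eq_zero] at h1
      simpa [OnTwist] using h1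
    · intro j
      refine ⟨?_, (hsB j).1, (hsB j).2⟩
      have h1 := hG (MvPolynomial.X (Sum.inr (j, 0)) ^ 2 -
        MvPolynomial.C d * MvPolynomial.X (Sum.inr (j, 1)) ^ 2 - 1) (by
          have h2 := congrArg (fun g : Γ(V, ⊤) =>
            (V.presheaf.germ ⊤ (genericPoint V) trivial).hom g) (huv j)
          simp only [map_sub, map_mul, map_pow, map_one, map_intCast] at h2
          simp only [map_sub, map_mul, map_pow, map_one, MvPolynomial.aeval_X, Sum.elim_inr,
            eq_intCast]
          rw [sub_eq_zero]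
          simpa [Pool.Agent.Helper81.LV.germ] using h2)
      simp only [map_sub, map_mul, map_pow, map_one, MvPolynomial.aeval_X, Sum.elim_inr,
        eq_intCast] at h1
      rw [sub_eq_zero] at h1
      simpa [Pool.Agent.Helper81.LV.value, value] using h1
    · intro h
      exact h0 (congrFun h s₀)
    · intro G hGI
      let F : Vars n m σ → MvPolynomial ((σ ⊕ (Fin n ⊕ Fin n)) ⊕ (Fin m × Fin 2)) ℤ :=
        Sum.elim (fun s => MvPolynomial.X (Sum.inl (Sum.inl s)))
          (Sum.elim (fun j => ![MvPolynomial.X (Sum.inl (Sum.inr (Sum.inl j.1))), 1,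
            MvPolynomial.X (Sum.inl (Sum.inr (Sum.inr j.1)))] j.2)
            (fun j => MvPolynomial.X (Sum.inr j)))
      have hF : ∀ {R : Type} [CommRing R] (w : (σ ⊕ (Fin n ⊕ Fin n)) ⊕ (Fin m × Fin 2) → R),
          (fun t => MvPolynomial.aeval w (F t)) =
            Sum.elim (fun s => w (Sum.inl (Sum.inl s)))
              (Sum.elim (fun j : Fin n × Fin 3 => ![w (Sum.inl (Sum.inr (Sum.inl j.1))), 1,
                w (Sum.inl (Sum.inr (Sum.inr j.1)))] j.2) (fun j => w (Sum.inr j))) := by
        intro R _ w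
        funext t
        rcases t with s | ⟨i, j⟩ | j
        · simp [F]
        · fin_cases j <;> simp [F]
        · simp [F]
      have h2 := hG (MvPolynomial.bind₁ F G) (by
        rw [MvPolynomial.aeval_bind₁, hF, ← hz G hGI]
        congr 2
        funext t
        rcases t with t | t | ⟨j, b⟩
        · rfl
        · rfl
        · fin_cases b <;> rfl)
      rw [MvPolynomial.aeval_bind₁, hF] at h2
      rw [← h2]
      congr 2
      funext t
      rcases t with t | ⟨i, b⟩ | ⟨j, b⟩
      · rfl
      · fin_cases b <;> rfl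
      · fin_cases b <;> rfl

end Pool.Agent.Results.MP_26d9ad_nt.SemiabelianTwists
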